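import Pool.Agent.helper26.IM.SpecA

/-!
# Project im: module GHO (helper91)
-/

set_option autoImplicit false

open Finset

namespace Pool.Agent.helper26.IM

open Finset Pool.Agent.RRank Pool.Agent.helper35.MR

theorem GHO (hNFS : NFS_stmt) (hNFC : NFC_stmt) : GHO_stmt := by
  intro K _ _ L _ _ A φ n m N q l t D h
  refine ⟨?_, ?_, ?_, ?_⟩
  · intro x y z
    have h1 : (t x y z) ^ N + ∑ i, (∑ s, D x.1 (Sum.inl (0, x.2, i, s)) * D y.1 (Sum.inl (1, y.2, i, s)) *
      D z.1 (Sum.inl (2, z.2, i, s))) * (t x y z) ^ (i : ℕ) = 0 := by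
      apply Subtype.ext
      have := h.eqn x y z
      push_cast
      exact this
    have h2 := congrArg φ h1
    simp only [map_add, map_pow, map_sum, map_mul, map_zero] at h2
    exact h2
  · intro i j k hs
    have h1 : (∑ e, ∑ f, ∑ g, D i (Sum.inr (Sum.inl (0, e))) * D j (Sum.inr (Sum.inl (1, f))) *
        D k (Sum.inr (Sum.inl (2, g))) * t (i, e) (j, f) (k, g)) = 0 := by
      apply Subtype.ext
      have := h.off i j k hs
      unfold Wt at this
      push_cast
      exact this
    have h2 := congrArg φ h1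
    simp only [map_sum, map_mul, map_zero] at h2
    unfold Wt
    exact h2
  · intro i
    have h1 : (∑ e, ∑ f, ∑ g, D i (Sum.inr (Sum.inl (0, e))) * D i (Sum.inr (Sum.inl (1, f))) *
        D i (Sum.inr (Sum.inl (2, g))) * t (i, e) (i, f) (i, g)) * D i (Sum.inr (Sum.inr ())) = 1 := by
      apply Subtype.ext
      have := h.diag i
      unfold Wt at this
      push_cast
      exact this
    have h2 := congrArg φ h1
    simp only [map_sum, map_mul, map_one] at h2
    unfold Wt
    exact h2
  · rintro ⟨x, y, z, hF⟩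
    apply h.nf
    refine ⟨x, y, z, ?_⟩
    by_contra hn
    let g : A.toSubring →+* K :=
      { toFun := fun a => φ ⟨a.1, a.2⟩
        map_one' := map_one φ
        map_mul' := fun a b => map_mul φ ⟨a.1, a.2⟩ ⟨b.1, b.2⟩
        map_zero' := map_zero φ
        map_add' := fun a b => map_add φ ⟨a.1, a.2⟩ ⟨b.1, b.2⟩ }
    have h1 := (hNFC L (Fin l) (fun i j k => (t (x i) (y j) (z k) : L))).mpr hn
    have h2 := hNFS L K A.toSubring g (Fin l)
      (fun i j k => (⟨(t (x i) (y j) (z k) : L), (t (x i) (y j) (z k)).2⟩ : A.toSubring)) h1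
    have h3 := (hNFC K (Fin l) _).mp h2
    exact h3 hF

end Pool.Agent.helper26.IM
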