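import Pool.Agent.helper26.IM.SpecA

/-!
# Project im: module LWF (helper91)
-/

set_option autoImplicit false

open Finset

namespace Pool.Agent.helper26.IM

open Finset Pool.Agent.RRank Pool.Agent.helper35.MR

/-- forget the last coordinate -/
def LWF_ini (K : Type) [Field K] (n : ℕ) : (Fin (n + 1) → K) →ₗ[K] (Fin n → K) where
  toFun u := fun i => u i.castSucc
  map_add' _ _ := rfl
  map_smul' _ _ := rfl

/-- extend by zero -/
def LWF_ext (K : Type) [Field K] (n : ℕ) : (Fin n → K) →ₗ[K] (Fin (n + 1) → K) where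
  toFun u := Fin.snoc (α := fun _ => K) u 0
  map_add' u v := by
    funext i
    refine Fin.lastCases ?_ (fun j => ?_) i
    · simp
    · simp
  map_smul' c v := by
    funext i
    refine Fin.lastCases ?_ (fun j => ?_) i
    · simp
    · simp

lemma LWF_ext_last (K : Type) [Field K] (n : ℕ) (v : Fin n → K) :
    LWF_ext K n v (Fin.last n) = 0 := by
  simp [LWF_ext]

lemma LWF_ext_cast (K : Type) [Field K] (n : ℕ) (v : Fin n → K) (i : Fin n) :
    LWF_ext K n v i.castSucc = v i := by
  simp [LWF_ext]

lemma LWF_ext_inj (K : Type) [Field K] (n : ℕ) : Function.Injective (LWF_ext K n) := by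
  intro u v h
  funext i
  have := congrFun h i.castSucc
  rwa [LWF_ext_cast, LWF_ext_cast] at this

lemma LWF_comap (K : Type) [Field K] (n : ℕ) (V : Submodule K (Fin (n + 1) → K)) :
    Module.finrank K V ≤ Module.finrank K (V.comap (LWF_ext K n)) + 1 := by
  have h1 : Module.finrank K (V.comap (LWF_ext K n)) =
      Module.finrank K ((V.comap (LWF_ext K n)).map (LWF_ext K n)) :=
    LinearEquiv.finrank_eq (Submodule.equivMapOfInjective _ (LWF_ext_inj K n) _)
  have h2 : (V.comap (LWF_ext K n)).map (LWF_ext K n) = LinearMap.range (LWF_ext K n) ⊓ V :=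
    Submodule.map_comap_eq _ _
  have h3 := Submodule.finrank_sup_add_finrank_inf_eq (LinearMap.range (LWF_ext K n)) V
  have h4 : Module.finrank K (LinearMap.range (LWF_ext K n)) = n := by
    rw [LinearMap.finrank_range_of_inj (LWF_ext_inj K n)]
    simp
  have h5 : Module.finrank K ((LinearMap.range (LWF_ext K n) ⊔ V : Submodule K (Fin (n + 1) → K)))
      ≤ n + 1 := by
    have := Submodule.finrank_le (LinearMap.range (LWF_ext K n) ⊔ V : Submodule K (Fin (n + 1) → K))
    simpa using this
  rw [h1, h2]
  omega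

lemma LWF_map (K : Type) [Field K] (n : ℕ) (U : Submodule K (Fin (n + 1) → K))
    (hU : (Pi.single (Fin.last n) 1 : Fin (n + 1) → K) ∉ U) :
    Module.finrank K (U.map (LWF_ini K n)) = Module.finrank K U := by
  have hinj : Function.Injective ((LWF_ini K n).domRestrict U) := by
    rw [← LinearMap.ker_eq_bot, LinearMap.ker_eq_bot']
    rintro ⟨u, hu⟩ h
    have h0 : ∀ i : Fin n, u i.castSucc = 0 := fun i => congrFun h i
    have h1 : u = u (Fin.last n) • (Pi.single (Fin.last n) 1 : Fin (n + 1) → K) := by
      funext i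
      refine Fin.lastCases ?_ (fun j => ?_) i
      · simp
      · rw [h0 j]
        simp [Fin.castSucc_ne_last]
    by_cases hl : u (Fin.last n) = 0
    · apply Subtype.ext
      rw [hl, zero_smul] at h1
      exact h1
    · exfalso
      apply hU
      have h2 := U.smul_mem (u (Fin.last n))⁻¹ hu
      have h3 : (u (Fin.last n))⁻¹ • u = (Pi.single (Fin.last n) 1 : Fin (n + 1) → K) := by
        conv_lhs => rw [h1]
        rw [smul_smul]
        simp [hl]
      rwa [h3] at h2
  rw [← LinearMap.finrank_range_of_inj hinj, LinearMap.range_domRestrict]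

lemma LWF_ev (K : Type) [Field K] (n : ℕ) (W : Fin (n + 1) → Fin (n + 1) → Fin (n + 1) → K)
    (hW : ∀ i j k, SMax i j k → W i j k = 0) (u : Fin (n + 1) → K) (v w : Fin n → K) :
    ev3 W u (LWF_ext K n v) (LWF_ext K n w) =
      ev3 (fun i j k => W i.castSucc j.castSucc k.castSucc) (LWF_ini K n u) v w := by
  unfold ev3
  rw [Fin.sum_univ_castSucc]
  have h1 : ∑ j, ∑ k, W (Fin.last n) j k *
      (u (Fin.last n) * LWF_ext K n v j * LWF_ext K n w k) = 0 := by
    refine Finset.sum_eq_zero fun j _ => Finset.sum_eq_zero fun k _ => ?_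
    refine Fin.lastCases ?_ (fun j => ?_) j
    · rw [LWF_ext_last]; ring
    · refine Fin.lastCases ?_ (fun k => ?_) k
      · rw [LWF_ext_last]; ring
      · rw [hW _ _ _ (Or.inl ⟨Fin.castSucc_lt_last j, Fin.castSucc_lt_last k⟩), zero_mul]
  rw [h1, add_zero]
  refine Finset.sum_congr rfl fun i _ => ?_
  rw [Fin.sum_univ_castSucc]
  have h2 : ∑ k, W i.castSucc (Fin.last n) k *
      (u i.castSucc * LWF_ext K n v (Fin.last n) * LWF_ext K n w k) = 0 := by
    refine Finset.sum_eq_zero fun k _ => ?_
    rw [LWF_ext_last]; ring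
  rw [h2, add_zero]
  refine Finset.sum_congr rfl fun j _ => ?_
  rw [Fin.sum_univ_castSucc, LWF_ext_last, mul_zero, mul_zero, add_zero]
  refine Finset.sum_congr rfl fun k _ => ?_
  rw [LWF_ext_cast, LWF_ext_cast]
  rfl

lemma LWF_step (K : Type) [Field K] (n : ℕ)
    (ih : ∀ (W : Fin n → Fin n → Fin n → K), (∀ i j k, SMax i j k → W i j k = 0) →
      (∀ i, W i i i ≠ 0) → Full3 W)
    (W : Fin (n + 1) → Fin (n + 1) → Fin (n + 1) → K) (hW : ∀ i j k, SMax i j k → W i j k = 0)
    (hd : ∀ i, W i i i ≠ 0) (U V V' : Submodule K (Fin (n + 1) → K))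
    (hdim : 2 * (n + 1) < Module.finrank K U + Module.finrank K V + Module.finrank K V')
    (hU : (Pi.single (Fin.last n) 1 : Fin (n + 1) → K) ∉ U) :
    ∃ u ∈ U, ∃ v ∈ V, ∃ w ∈ V', ev3 W u v w ≠ 0 := by
  have h1 := LWF_map K n U hU
  have h2 := LWF_comap K n V
  have h3 := LWF_comap K n V'
  obtain ⟨u, ⟨u', hu, rfl⟩, v, hv, w, hw, h⟩ :=
    ih (fun i j k => W i.castSucc j.castSucc k.castSucc)
      (fun i j k h => hW _ _ _ (by simpa [SMax] using h)) (fun i => hd _)
      (U.map (LWF_ini K n)) (V.comap (LWF_ext K n)) (V'.comap (LWF_ext K n))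
      (by rw [h1, Fintype.card_fin]; omega)
  refine ⟨u', hu, LWF_ext K n v, hv, LWF_ext K n w, hw, ?_⟩
  rw [LWF_ev K n W hW]
  exact h

theorem LWF : LWF_stmt := by
  intro K _ n
  induction n with
  | zero =>
    intro W _ _ U V V' hdim
    exfalso
    have h1 := Submodule.finrank_le U
    have h2 := Submodule.finrank_le V
    have h3 := Submodule.finrank_le V'
    simp only [Module.finrank_fintype_fun_eq_card, Fintype.card_fin] at h1 h2 h3 hdim
    omega
  | succ n ih =>
    intro W hW hd U V V' hdim
    rw [Fintype.card_fin] at hdim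
    by_cases hU : (Pi.single (Fin.last n) 1 : Fin (n + 1) → K) ∈ U
    · by_cases hV : (Pi.single (Fin.last n) 1 : Fin (n + 1) → K) ∈ V
      · by_cases hV' : (Pi.single (Fin.last n) 1 : Fin (n + 1) → K) ∈ V'
        · refine ⟨_, hU, _, hV, _, hV', ?_⟩
          have : ev3 W (Pi.single (Fin.last n) 1) (Pi.single (Fin.last n) 1)
              (Pi.single (Fin.last n) 1) = W (Fin.last n) (Fin.last n) (Fin.last n) := by
            unfold ev3
            rw [Finset.sum_eq_single (Fin.last n), Finset.sum_eq_single (Fin.last n),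
              Finset.sum_eq_single (Fin.last n)]
            · simp
            · intro b _ hb
              simp [Pi.single_eq_of_ne hb]
            · simp
            · intro b _ hb
              simp [Pi.single_eq_of_ne hb]
            · simp
            · intro b _ hb
              simp [Pi.single_eq_of_ne hb]
            · simp
          rw [this]
          exact hd _
        · obtain ⟨u, hu, v, hv, w, hw, h⟩ := LWF_step K n ih (fun k j i => W i j k)
            (fun i j k h => hW _ _ _ (by unfold SMax at h ⊢; tauto)) hd V' V U (by omega) hV'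
          exact ⟨w, hw, v, hv, u, hu, by rwa [ev3_swap13] at h⟩
      · obtain ⟨u, hu, v, hv, w, hw, h⟩ := LWF_step K n ih (fun j i k => W i j k)
          (fun i j k h => hW _ _ _ (by unfold SMax at h ⊢; tauto)) hd V U V' (by omega) hV
        exact ⟨v, hv, u, hu, w, hw, by rwa [ev3_swap12] at h⟩
    · exact LWF_step K n ih W hW hd U V V' hdim hU

end Pool.Agent.helper26.IM
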